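import Mathlib
import Pool.Agent.TH286.GT.All

set_option autoImplicit false

/-!
The subspace theorem (library `Pool.Agent.TH286.GT`) for the points `(b^(2m), b^m A, A^2, F)` with
`A` close to `α b^m`, `F` close to `β A^2` and `F` divisible by a large power of a prime factor
of `b`.
-/

namespace Pool.Agent.Q48.GC

open Finset Filter Topology Pool.Agent.TH286.GT

/-- the numbers `lam` -/
def lam4 (O : Type) [CommRing O] (b p : ℕ) : Fin 3 → Fin 4 → O :=
  ![![(b : O), 1, 1, 1], ![1, (b : O), 1, 1], ![1, 1, 1, (p : O)]]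

def kk4 (m k : ℕ) : Fin 3 → ℕ := ![2 * m, m, k]

/-- the lattice matrix -/
def B4 (b p m k : ℕ) : Matrix (Fin 4) (Fin 4) ℤ :=
  Matrix.diagonal ![(b : ℤ) ^ (2 * m), (b : ℤ) ^ m, 1, (p : ℤ) ^ k]

lemma bet_lam4 (O : Type) [CommRing O] (b p m k : ℕ) :
    bet (lam4 O b p) (kk4 m k) = ![(b : O) ^ (2 * m), (b : O) ^ m, 1, (p : O) ^ k] := by
  funext l
  unfold bet lam4 kk4
  rw [Fin.prod_univ_three]
  fin_cases l <;> simp

lemma det_B4 (b p m k : ℕ) : (B4 b p m k).det = (b : ℤ) ^ (2 * m) * (b : ℤ) ^ m * (p : ℤ) ^ k := by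
  unfold B4
  rw [Matrix.det_diagonal, Fin.prod_univ_four]
  simp

lemma lat_B4 (O : Type) [CommRing O] {b p : ℕ} (hb : 2 ≤ b) (hp : 2 ≤ p) (m k : ℕ) :
    Lat (1 : Matrix (Fin 4) (Fin 4) O) (bet (lam4 O b p) (kk4 m k)) (B4 b p m k) := by
  refine ⟨?_, ?_⟩
  · rw [det_B4]
    have : (b : ℤ) ≠ 0 := by exact_mod_cast (by omega : b ≠ 0)
    have : (p : ℤ) ≠ 0 := by exact_mod_cast (by omega : p ≠ 0)
    positivity
  · rw [one_mul, mul_one]
    unfold B4
    rw [Matrix.diagonal_map (map_zero _), bet_lam4]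
    congr 1
    funext l
    fin_cases l <;> simp

/-- the matrix of the forms -/
def M4 {O : Type} [CommRing O] (n0 a1 a2 b1 : O) : Matrix (Fin 4) (Fin 4) O :=
  !![1, 0, 0, 0; -a1, n0, 0, 0; a2, -(2 * a1), n0, 0; 0, 0, -b1, n0]

lemma det_M4 {O : Type} [CommRing O] (n0 a1 a2 b1 : O) : (M4 n0 a1 a2 b1).det = n0 ^ 3 := by
  unfold M4
  simp [Matrix.det_succ_row_zero, Fin.sum_univ_succ, Fin.succAbove]
  ring

/-- The subspace theorem for the points `(b^(2m), b^m A, A^2, F)`. -/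
theorem sub4 (b p : ℕ) (hb : 2 ≤ b) (hp : 2 ≤ p) (α β : ℝ) (hα : IsAlgebraic ℚ α)
    (hβ : IsAlgebraic ℚ β) (ε : ℝ) (hε : 0 < ε) (m : ℕ → ℕ) (hm : Tendsto m atTop atTop)
    (k : ℕ → ℕ) (A F : ℕ → ℤ) (hA : ∀ t, |(A t : ℝ) - α * (b : ℝ) ^ m t| ≤ 1)
    (hF : ∀ t, |(F t : ℝ) - β * (A t : ℝ) ^ 2| ≤ 1) (hk : ∀ t, (p : ℤ) ^ k t ∣ F t)
    (hk1 : ∀ t, (p : ℝ) ^ k t ≤ (b : ℝ) ^ m t)
    (hk2 : ∀ t, (b : ℝ) ^ (ε * m t) ≤ (p : ℝ) ^ k t) :
    ∃ y : Fin 4 → ℤ, y ≠ 0 ∧ ∃ᶠ t in atTop, (y 0 : ℝ) * (b : ℝ) ^ (2 * m t) +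
      (y 1 : ℝ) * ((b : ℝ) ^ m t * A t) + (y 2 : ℝ) * (A t : ℝ) ^ 2 + (y 3 : ℝ) * F t = 0 := by
  have hb0 : (0 : ℝ) < b := by exact_mod_cast (by omega : 0 < b)
  have hb1 : (1 : ℝ) < b := by exact_mod_cast (by omega : 1 < b)
  have hp0 : (0 : ℝ) < p := by exact_mod_cast (by omega : 0 < p)
  set Lb : ℝ := Real.log b with hLb
  have hLb0 : 0 < Lb := Real.log_pos hb1
  -- the number field
  set F' : IntermediateField ℚ ℝ := IntermediateField.adjoin ℚ {α, β} with hFdef
  have hfin : FiniteDimensional ℚ F' := by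
    apply IntermediateField.finiteDimensional_adjoin
    intro x hx
    rcases hx with rfl | hx
    · exact hα.isIntegral
    · rw [Set.mem_singleton_iff] at hx; rw [hx]; exact hβ.isIntegral
  have : NumberField F' := { to_charZero := inferInstance, to_finiteDimensional := hfin }
  have hαF : α ∈ F' := IntermediateField.subset_adjoin ℚ _ (by simp)
  have hβF : β ∈ F' := IntermediateField.subset_adjoin ℚ _ (by simp)
  let c : Fin 3 → F' := ![⟨α, hαF⟩, ⟨α, hαF⟩ ^ 2, ⟨β, hβF⟩]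
  obtain ⟨Nn, hNn⟩ := IsLocalization.exist_integer_multiples_of_finite
    (nonZeroDivisors (NumberField.RingOfIntegers F')) c
  have hN0 : (Nn : NumberField.RingOfIntegers F') ≠ 0 := nonZeroDivisors.ne_zero Nn.2
  have hN' : ∀ i, ∃ M : NumberField.RingOfIntegers F',
      algebraMap (NumberField.RingOfIntegers F') F' M
        = algebraMap (NumberField.RingOfIntegers F') F' (Nn : NumberField.RingOfIntegers F')
          * c i := by
    intro i
    obtain ⟨M, hM⟩ := hNn i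
    refine ⟨M, ?_⟩
    rw [hM, Algebra.smul_def]
  choose d hd using hN'
  have hinj : Function.Injective (algebraMap (NumberField.RingOfIntegers F') F') :=
    IsFractionRing.injective _ _
  set ψ : NumberField.RingOfIntegers F' →+* ℝ :=
    (algebraMap F' ℝ).comp (algebraMap (NumberField.RingOfIntegers F') F') with hψ
  set φ : NumberField.RingOfIntegers F' →+* ℂ := Complex.ofRealHom.comp ψ with hφ
  set ν : ℝ := ψ (Nn : NumberField.RingOfIntegers F') with hν
  have hν0 : ν ≠ 0 := by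
    intro h
    apply hN0
    apply hinj
    rw [map_zero]
    apply (algebraMap F' ℝ).injective
    rw [map_zero]
    exact h
  have hνp : 0 < |ν| := abs_pos.2 hν0
  set lν : ℝ := Real.log |ν| with hlν
  have hψd : ∀ i, ψ (d i) = ν * (c i : ℝ) := by
    intro i
    have h1 := congrArg (algebraMap F' ℝ) (hd i)
    rw [map_mul] at h1
    exact h1
  have hd0 : ψ (d 0) = ν * α := hψd 0
  have hd1 : ψ (d 1) = ν * α ^ 2 := by
    have h := hψd 1
    rw [h]
    simp [c]
  have hd2 : ψ (d 2) = ν * β := hψd 2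
  -- the tail
  obtain ⟨t0, ht0⟩ : ∃ t0, ∀ t, t0 ≤ t → (1 : ℝ) ≤ m t ∧ 3 * lν ≤ ε * Lb / 2 * m t := by
    have h1 : Tendsto (fun t => (m t : ℝ)) atTop atTop :=
      tendsto_natCast_atTop_atTop.comp hm
    have h2 : ∀ᶠ t in atTop, (1 : ℝ) ≤ m t := h1.eventually (eventually_ge_atTop 1)
    have h3 : ∀ᶠ t in atTop, 3 * lν / (ε * Lb / 2) ≤ m t :=
      h1.eventually (eventually_ge_atTop _)
    obtain ⟨t0, ht0⟩ := eventually_atTop.1 (h2.and h3)
    refine ⟨t0, fun t ht => ⟨(ht0 t ht).1, ?_⟩⟩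
    have h4 := (ht0 t ht).2
    rw [div_le_iff₀ (by positivity)] at h4
    linarith
  -- the data
  let x : ℕ → Fin 4 → ℤ := fun t =>
    ![(b : ℤ) ^ (2 * m (t + t0)), (b : ℤ) ^ m (t + t0) * A (t + t0), A (t + t0) ^ 2, F (t + t0)]
  let Z : ℕ → Fin 4 → ℝ := fun t =>
    ![(b : ℝ) ^ (2 * m (t + t0)), |ν| * (b : ℝ) ^ m (t + t0), |ν|, |ν|]
  set γ : ℝ := ε * Lb / 2 with hγ
  have hγ0 : 0 < γ := by positivity
  set C : ℝ := 1 + 4 * Lb + |lν| with hC
  have hC1 : 1 ≤ C := by
    have := abs_nonneg (lν)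
    linarith
  have hlogp : ∀ t, (k t : ℝ) * Real.log p ≤ m t * Lb := by
    intro t
    have h := Real.log_le_log (by positivity) (hk1 t)
    rwa [Real.log_pow, Real.log_pow] at h
  have hlogp2 : ∀ t, ε * m t * Lb ≤ (k t : ℝ) * Real.log p := by
    intro t
    have h := Real.log_le_log (by positivity) (hk2 t)
    rwa [Real.log_pow, Real.log_rpow hb0] at h
  have hlogdet : ∀ t, Real.log |((B4 b p (m t) (k t)).det : ℝ)| =
      3 * m t * Lb + k t * Real.log p := by
    intro t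
    rw [det_B4]
    push_cast
    rw [abs_of_pos (by positivity), Real.log_mul (by positivity) (by positivity),
      Real.log_mul (by positivity) (by positivity), Real.log_pow, Real.log_pow, Real.log_pow]
    push_cast
    ring
  have hlog1 : ∀ t, Real.log ((b : ℝ) ^ (2 * m t)) = 2 * m t * Lb := by
    intro t; rw [Real.log_pow]; push_cast; ring
  have hlog2 : ∀ t, Real.log (|ν| * (b : ℝ) ^ m t) = lν + m t * Lb := by
    intro t; rw [Real.log_mul (by positivity) (by positivity), Real.log_pow]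
  have hsize : ∀ t, SizeO C γ ((m (t + t0) : ℕ) : ℝ) (B4 b p (m (t + t0)) (k (t + t0))) (Z t) := by
    intro t
    obtain ⟨h1, h2⟩ := ht0 (t + t0) (Nat.le_add_left _ _)
    have hNN : (0 : ℝ) ≤ m (t + t0) := by linarith
    have e2 : |lν| ≤ |lν| * m (t + t0) := le_mul_of_one_le_right (abs_nonneg _) h1
    have e3 : 0 ≤ Lb * m (t + t0) := by positivity
    have e7 := neg_abs_le (lν)
    have e8 := le_abs_self (lν)
    refine ⟨?_, ?_, ?_, ?_⟩
    · rw [hlogdet]
      have := hlogp (t + t0)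
      rw [hC]
      nlinarith
    · intro l
      fin_cases l
      · show (0 : ℝ) < (b : ℝ) ^ (2 * m (t + t0)); positivity
      · show (0 : ℝ) < |ν| * (b : ℝ) ^ m (t + t0); positivity
      · exact hνp
      · exact hνp
    · intro l
      fin_cases l
      · show |Real.log ((b : ℝ) ^ (2 * m (t + t0)))| ≤ _
        rw [hlog1, abs_of_nonneg (by positivity), hC]
        nlinarith
      · show |Real.log (|ν| * (b : ℝ) ^ m (t + t0))| ≤ _
        rw [hlog2, abs_le, hC]
        constructor <;> nlinarith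
      · show |Real.log (|ν|)| ≤ _
        rw [← hlν, hC]
        nlinarith
      · show |Real.log (|ν|)| ≤ _
        rw [← hlν, hC]
        nlinarith
    · rw [hlogdet, Fin.sum_univ_four]
      show Real.log ((b : ℝ) ^ (2 * m (t + t0))) + Real.log (|ν| * (b : ℝ) ^ m (t + t0)) +
        Real.log |ν| + Real.log |ν| + γ * _ ≤ _
      rw [hlog1, hlog2, ← hlν, hγ]
      have := hlogp2 (t + t0)
      nlinarith
  have hre : ∀ z, ‖φ z‖ = |ψ z| := by
    intro z
    rw [hφ, RingHom.comp_apply, Complex.ofRealHom_eq_coe, Complex.norm_real, Real.norm_eq_abs]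
  have hsol : ∀ t, SolO φ (M4 (Nn : NumberField.RingOfIntegers F') (d 0) (d 1) (d 2))
      (B4 b p (m (t + t0)) (k (t + t0))) (Z t) (x t) := by
    intro t
    refine ⟨?_, ?_⟩
    · intro l
      rw [hre, map_sum, Fin.sum_univ_four]
      have hA' := hA (t + t0)
      have hF' := hF (t + t0)
      fin_cases l
      · show |ψ (1 * (((b : ℤ) ^ (2 * m (t + t0)) : ℤ) : _)) + ψ (0 * _) + ψ (0 * _) + ψ (0 * _)| ≤
          (b : ℝ) ^ (2 * m (t + t0))
        simp only [zero_mul, map_zero, add_zero, one_mul, map_intCast]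
        push_cast
        rw [abs_of_pos (by positivity)]
      · show |ψ (-(d 0) * (((b : ℤ) ^ (2 * m (t + t0)) : ℤ) : _)) +
          ψ ((Nn : NumberField.RingOfIntegers F') *
            (((b : ℤ) ^ m (t + t0) * A (t + t0) : ℤ) : _)) + ψ (0 * _) + ψ (0 * _)| ≤
          |ν| * (b : ℝ) ^ m (t + t0)
        simp only [zero_mul, map_zero, add_zero, map_mul, map_neg, map_intCast, hd0, ← hν]
        push_cast
        have e : -(ν * α) * (b : ℝ) ^ (2 * m (t + t0)) + ν * ((b : ℝ) ^ m (t + t0) * A (t + t0)) =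
            ν * (b : ℝ) ^ m (t + t0) * (A (t + t0) - α * (b : ℝ) ^ m (t + t0)) := by
          rw [show 2 * m (t + t0) = m (t + t0) + m (t + t0) by ring, pow_add]; ring
        rw [e, abs_mul, abs_mul, abs_of_pos (pow_pos hb0 (m (t + t0)))]
        exact mul_le_of_le_one_right (by positivity) hA'
      · show |ψ ((d 1) * (((b : ℤ) ^ (2 * m (t + t0)) : ℤ) : _)) +
          ψ (-(2 * d 0) * (((b : ℤ) ^ m (t + t0) * A (t + t0) : ℤ) : _)) +
          ψ ((Nn : NumberField.RingOfIntegers F') * ((A (t + t0) ^ 2 : ℤ) : _)) + ψ (0 * _)| ≤ |ν|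
        simp only [zero_mul, map_zero, add_zero, map_mul, map_neg, map_intCast, hd0, hd1, ← hν,
          map_ofNat]
        push_cast
        have e : ν * α ^ 2 * (b : ℝ) ^ (2 * m (t + t0)) +
            -(2 * (ν * α)) * ((b : ℝ) ^ m (t + t0) * A (t + t0)) + ν * (A (t + t0) : ℝ) ^ 2 =
            ν * (A (t + t0) - α * (b : ℝ) ^ m (t + t0)) ^ 2 := by
          rw [show 2 * m (t + t0) = m (t + t0) + m (t + t0) by ring, pow_add]; ring
        rw [e, abs_mul, abs_pow]
        exact mul_le_of_le_one_right (by positivity) (pow_le_one₀ (abs_nonneg _) hA')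
      · show |ψ (0 * _) + ψ (0 * _) + ψ (-(d 2) * ((A (t + t0) ^ 2 : ℤ) : _)) +
          ψ ((Nn : NumberField.RingOfIntegers F') * ((F (t + t0) : ℤ) : _))| ≤ |ν|
        simp only [zero_mul, map_zero, zero_add, map_mul, map_neg, map_intCast, hd2, ← hν]
        push_cast
        have e : -(ν * β) * (A (t + t0) : ℝ) ^ 2 + ν * (F (t + t0) : ℝ) =
            ν * (F (t + t0) - β * (A (t + t0) : ℝ) ^ 2) := by ring
        rw [e, abs_mul]
        exact mul_le_of_le_one_right (by positivity) hF'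
    · obtain ⟨w, hw⟩ := hk (t + t0)
      refine ⟨![1, A (t + t0), A (t + t0) ^ 2, w], ?_⟩
      funext l
      unfold B4
      rw [Matrix.mulVec_diagonal]
      fin_cases l
      · simp [x]
      · simp [x]
      · simp [x]
      · simp [x, hw]
  have hdata : DataO φ (M4 (Nn : NumberField.RingOfIntegers F') (d 0) (d 1) (d 2))
      (1 : Matrix (Fin 4) (Fin 4) (NumberField.RingOfIntegers F'))
      (lam4 (NumberField.RingOfIntegers F') b p) := by
    refine ⟨?_, ?_, ?_, ?_⟩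
    · rw [det_M4]
      exact pow_ne_zero _ hN0
    · intro i j
      rw [hφ, RingHom.comp_apply, Complex.ofRealHom_eq_coe, Complex.ofReal_im]
    · rw [Matrix.det_one]; exact one_ne_zero
    · intro v l
      have h1 : ((b : ℕ) : NumberField.RingOfIntegers F') ≠ 0 := by
        exact_mod_cast (by omega : b ≠ 0)
      have h2 : ((p : ℕ) : NumberField.RingOfIntegers F') ≠ 0 := by
        exact_mod_cast (by omega : p ≠ 0)
      unfold lam4
      fin_cases v <;> fin_cases l <;> simp <;> first | exact h1 | exact h2 | omega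
  have hNt : Tendsto (fun t => ((m (t + t0) : ℕ) : ℝ)) atTop atTop :=
    tendsto_natCast_atTop_atTop.comp (hm.comp (tendsto_add_atTop_nat t0))
  have hxne : ∀ t, x t ≠ 0 := by
    intro t h
    have h1 := congrFun h 0
    have h2 : (b : ℤ) ^ (2 * m (t + t0)) = 0 := h1
    exact absurd h2 (pow_ne_zero _ (by exact_mod_cast (by omega : b ≠ 0)))
  obtain ⟨y, hy0, hy⟩ := subspaceO (NumberField.RingOfIntegers F') φ 4 3 (by omega)
    (M4 (Nn : NumberField.RingOfIntegers F') (d 0) (d 1) (d 2)) 1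
    (lam4 (NumberField.RingOfIntegers F') b p)
    hdata C γ hC1 hγ0 (fun t => ((m (t + t0) : ℕ) : ℝ)) hNt
    (fun t => kk4 (m (t + t0)) (k (t + t0))) (fun t => B4 b p (m (t + t0)) (k (t + t0)))
    (fun t => lat_B4 _ hb hp _ _) Z hsize x hxne hsol
  refine ⟨y, hy0, ?_⟩
  refine (tendsto_add_atTop_nat t0).frequently (hy.mono fun t ht => ?_)
  rw [Fin.sum_univ_four] at ht
  have h1 : (((y 0 * x t 0 + y 1 * x t 1 + y 2 * x t 2 + y 3 * x t 3 : ℤ)) : ℝ) = 0 := by
    rw [ht]; simp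
  have e0 : x t 0 = (b : ℤ) ^ (2 * m (t + t0)) := rfl
  have e1 : x t 1 = (b : ℤ) ^ m (t + t0) * A (t + t0) := rfl
  have e2 : x t 2 = A (t + t0) ^ 2 := rfl
  have e3 : x t 3 = F (t + t0) := rfl
  rw [e0, e1, e2, e3] at h1
  push_cast at h1
  exact h1

end Pool.Agent.Q48.GC
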